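import Pool.Agent.H42.Sum4

open Pool.Agent.H42.Sumg Pool.Agent.H42.Spl Pool.Agent.H42.PolD Cardinal

/-- Property `(*)` versus the Menger property: the question is independent of ZFC. -/
theorem Pool.Agent.Results.MP_2a01b0_gt.Full.result :
    (dNum < continuum → ∃ X : Set (ℕ → ℕ), X.Infinite ∧
      Pool.Agent.H42.Sumg.Star X ∧ ¬Menger X) ∧
    (uNum < gNum → ∀ (X : Type) [TopologicalSpace X] [T35Space X] [Infinite X],
      Pool.Agent.H42.Sumg.Star X → Menger X) ∧
    ∀ (X : Type) [TopologicalSpace X] [T35Space X] [Infinite X], ¬StarLit X :=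
  ⟨Pool.Agent.H42.Sumg.neg, fun h X _ _ _ => Pool.Agent.H42.Sumg.pos h X, fun _ _ _ _ => not_lit⟩
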